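import Pool.Agent.K3h75.FF.StmS

/-!
# FF brick SCH2: homogeneous coordinates of a regular projective modification of `Spec A` give a
resolution of singularities of `Spec A`
-/

set_option autoImplicit false

namespace Pool.Agent.K3h12.FF

open Pool.Agent.Y223.G AlgebraicGeometry CategoryTheory Pool.Agent.K3h75.FF

theorem t_SCH2 : S_SCH2 := by
  intro hR κ A Y _ _ _ _ _ _ _ _ _ I _ zz J hM
  classical
  let _ : Algebra κ Y := ((algebraMap A Y).comp (algebraMap κ A)).toAlgebra
  have : IsScalarTower κ A Y := IsScalarTower.of_algebraMap_eq (fun _ => rfl)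
  obtain ⟨a0, ha0⟩ := IsLocalization.exist_integer_multiples_of_finite (nonZeroDivisors A) zz
  choose w hw using ha0
  have hinj : Function.Injective (algebraMap A Y) := IsFractionRing.injective A Y
  have ha0' : algebraMap A Y a0 ≠ 0 := by
    intro h
    exact nonZeroDivisors.ne_zero a0.2 (hinj (by rw [h, map_zero]))
  have hw' : ∀ i, algebraMap A Y (w i) = algebraMap A Y a0 * zz i := by
    intro i
    rw [hw i, Algebra.smul_def]
  have hwd : ∀ i j, algebraMap A Y (w i) / algebraMap A Y (w j) = zz i / zz j := by
    intro i j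
    rw [hw' i, hw' j, mul_div_mul_left _ _ ha0']
  have hg : Function.Injective (IsScalarTower.toAlgHom κ A Y) := hinj
  refine Pool.Agent.H920R2.hasResolution_of_charts' (k := κ) (K := Y)
    (IsScalarTower.toAlgHom κ A Y) hg w J ?_ ?_
  · intro V hV
    obtain ⟨j, hj, hj'⟩ := hM.cv V hV
    refine ⟨j, hj, ?_, fun i => ?_⟩
    · intro h
      have h2 := hw' j
      rw [h, map_zero] at h2
      exact (mul_ne_zero ha0' (hM.z0 j hj)) h2.symm
    · change algebraMap A Y (w i) / algebraMap A Y (w j) ∈ V
      rw [hwd]
      exact hj' i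
  · intro s hs hs0
    set C₀ : Subalgebra A Y := Algebra.adjoin A (Set.range fun i => zz i / zz s) with hC₀
    have hft : Algebra.FiniteType A C₀ := by
      rw [hC₀]
      exact (Subalgebra.fg_iff_finiteType _).mp
        ⟨(Set.finite_range fun i => zz i / zz s).toFinset, by rw [Set.Finite.coe_toFinset]⟩
    let C : Subalgebra κ Y := C₀.restrictScalars κ
    have hft2 : Algebra.FiniteType κ C₀ := Algebra.FiniteType.trans (S := A) inferInstance hft
    have hsm : Algebra.Smooth κ C₀ := hR κ C₀ (hM.rg s hs)
    refine ⟨C, hsm, fun a => ?_, fun i => ?_, ?_⟩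
    · change algebraMap A Y a ∈ C₀
      exact C₀.algebraMap_mem a
    · change algebraMap A Y (w i) / algebraMap A Y (w s) ∈ C₀
      rw [hwd]
      exact Algebra.subset_adjoin ⟨i, rfl⟩
    · intro x hx
      have hx' : x ∈ Algebra.adjoin A (Set.range fun i => zz i / zz s) := hx
      clear hx
      induction hx' using Algebra.adjoin_induction with
      | mem x hx =>
        obtain ⟨i, rfl⟩ := hx
        refine Algebra.subset_adjoin (Or.inr ⟨i, ?_⟩)
        exact hwd i s
      | algebraMap a => exact Algebra.subset_adjoin (Or.inl ⟨a, rfl⟩)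
      | add x y hx hy h1 h2 => exact add_mem h1 h2
      | mul x y hx hy h1 h2 => exact mul_mem h1 h2

end Pool.Agent.K3h12.FF
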