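import Pool.Agent.H968R2.Quad.Model

/-!
# SCH3, part a: the charts of the projective model of a module
-/

set_option autoImplicit false

open Polynomial DirectSum HomogeneousLocalization AlgebraicGeometry CategoryTheory
open Pool.Agent.H968R2.Quad

namespace Pool.Agent.K3h12.FF

variable {O : Type} [CommRing O] {F : Type} [Field F] [Algebra O F] (M : Submodule O F)

/-- The map from a chart ring to the field. -/
noncomputable def ev (x : mAlg M) (hx : evalOne M x ≠ 0) : Away (mPiece M) x →+* F :=
  (IsLocalization.Away.lift (S := Localization.Away x) x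
    (g := evalOne M) (IsUnit.mk0 _ hx)).comp
    (algebraMap (Away (mPiece M) x) (Localization.Away x))

lemma ev_awayMap {f g x : mAlg M} {e : ℕ} (hg : g ∈ mPiece M e) (hx : x = f * g)
    (hf : evalOne M f ≠ 0) (hx0 : evalOne M x ≠ 0) :
    (ev M x hx0).comp (awayMap (mPiece M) hg hx) = ev M f hf := by
  ext a
  unfold ev
  rw [RingHom.comp_apply, RingHom.comp_apply, RingHom.comp_apply,
    HomogeneousLocalization.algebraMap_apply, HomogeneousLocalization.algebraMap_apply,
    val_awayMap]
  have h : ((IsLocalization.Away.lift (S := Localization.Away x) x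
      (g := evalOne M) (IsUnit.mk0 _ hx0)).comp
      (Localization.awayLift (algebraMap (mAlg M) (Localization.Away x)) f
        (isUnit_of_dvd_unit (map_dvd _ ⟨_, hx⟩) (IsLocalization.Away.algebraMap_isUnit x)))) =
      IsLocalization.Away.lift (S := Localization.Away f) f
      (g := evalOne M) (IsUnit.mk0 _ hf) := by
    apply IsLocalization.ringHom_ext (Submonoid.powers f)
    ext b
    simp only [RingHom.comp_apply]
    rw [Localization.awayLift, IsLocalization.Away.lift_eq, IsLocalization.Away.lift_eq,
      IsLocalization.Away.lift_eq]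
  exact RingHom.congr_fun h a.val

lemma ev_generic {f g : mAlg M} {d e : ℕ} (hf : f ∈ mPiece M d) (hd : 0 < d)
    (hg : g ∈ mPiece M e) (he : 0 < e) (hf0 : evalOne M f ≠ 0) (hg0 : evalOne M g ≠ 0) :
    Spec.map (CommRingCat.ofHom (ev M f hf0)) ≫ Proj.awayι (mPiece M) f hf hd =
      Spec.map (CommRingCat.ofHom (ev M g hg0)) ≫ Proj.awayι (mPiece M) g hg he := by
  have hx0 : evalOne M (f * g) ≠ 0 := by
    rw [map_mul]
    exact mul_ne_zero hf0 hg0
  rw [← ev_awayMap M hg rfl hf0 hx0, ← ev_awayMap M hf (mul_comm f g) hg0 hx0,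
    CommRingCat.ofHom_comp, CommRingCat.ofHom_comp, Spec.map_comp, Spec.map_comp,
    Category.assoc, Category.assoc]
  rw [Proj.SpecMap_awayMap_awayι (mPiece M) hf hd hg rfl,
    Proj.SpecMap_awayMap_awayι (mPiece M) hg he hf (mul_comm f g)]
  rfl

lemma psi_eq_ev (a : F) (ha : a ∈ M) (ha0 : a ≠ 0) :
    psi M a ha ha0 = ev M (tElt M a ha) (by rw [evalOne_tElt]; exact ha0) := rfl

lemma psi_generic (a b : F) (ha : a ∈ M) (ha0 : a ≠ 0) (hb : b ∈ M) (hb0 : b ≠ 0) :
    Spec.map (CommRingCat.ofHom (psi M a ha ha0)) ≫ modelChart M a ha =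
      Spec.map (CommRingCat.ofHom (psi M b hb hb0)) ≫ modelChart M b hb := by
  rw [psi_eq_ev, psi_eq_ev]
  exact ev_generic M (tElt_mem M a ha) one_pos (tElt_mem M b hb) one_pos _ _

lemma psi_fromZero (a : F) (ha : a ∈ M) (ha0 : a ≠ 0) :
    (psi M a ha ha0).comp ((fromZeroRingHom (mPiece M) _).comp (toZero M)) = algebraMap O F := by
  ext r
  rw [RingHom.comp_apply, RingHom.comp_apply]
  have e : fromZeroRingHom (mPiece M) (Submonoid.powers (tElt M a ha)) (toZero M r) =
      frac M a ha 0 (algebraMap O F r)
        (by rw [pow_zero]; exact Submodule.mem_one.2 ⟨r, rfl⟩) := by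
    apply HomogeneousLocalization.val_injective
    unfold frac
    rw [Away.val_mk]
    change Localization.mk _ _ = Localization.mk _ _
    congr 1
  rw [e, psi_frac, pow_zero, div_one]

lemma psi_locElem (a b : F) (ha : a ∈ M) (hb : b ∈ M) (hb0 : b ≠ 0) :
    psi M b hb hb0 (Away.isLocalizationElem (tElt_mem M b hb) (tElt_mem M a ha)) =
      a / b := by
  unfold psi
  rw [RingHom.comp_apply, HomogeneousLocalization.algebraMap_apply, Away.val_mk,
    Localization.mk_eq_mk', IsLocalization.Away.lift, IsLocalization.lift_mk'_spec]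
  simp only [evalOne_tElt, pow_one]
  field_simp

/-- The charts attached to the indices in `J` cover the model, as soon as for every valuation
ring of `F` containing `O` one of the generators attached to `J` has minimal valuation. -/
theorem cover_model {I : Type} (z : I → F) (hz : ∀ i, z i ∈ M)
    (hspan : M ≤ Submodule.span O (Set.range z)) (J : Set I) (z0 : ∀ j ∈ J, z j ≠ 0)
    (cv : ∀ V : ValuationSubring F, (∀ c : O, algebraMap O F c ∈ V) →
      ∃ j ∈ J, ∀ i, z i / z j ∈ V) (y : model M) :
    ∃ j ∈ J, y ∈ (modelChart M (z j) (hz j)).opensRange := by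
  obtain ⟨a, ha, ha0, w, hw⟩ := exists_chart M y
  let P : Ideal (Away (mPiece M) (tElt M a ha)) := w.asIdeal
  have hP : P.IsPrime := w.isPrime
  let φ := psi M a ha ha0
  have hφ : Function.Injective φ := psi_injective M a ha ha0
  have hunit : ∀ x : P.primeCompl, IsUnit (φ x) := by
    intro x
    apply IsUnit.mk0
    intro h
    have h0 : (x : Away (mPiece M) (tElt M a ha)) = 0 := (map_eq_zero_iff φ hφ).1 h
    exact x.2 (by rw [h0]; exact P.zero_mem)
  let f : Localization.AtPrime P →+* F := IsLocalization.lift (M := P.primeCompl)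
    (S := Localization.AtPrime P) hunit
  obtain ⟨V, hVf, hloc⟩ := IsLocalRing.exists_factor_valuationRing f
  let α : Away (mPiece M) (tElt M a ha) →+* Localization.AtPrime P := algebraMap _ _
  have hfφ : ∀ x : Away (mPiece M) (tElt M a ha), f (α x) = φ x :=
    fun x => IsLocalization.lift_eq (M := P.primeCompl) (S := Localization.AtPrime P) hunit x
  have hOV : ∀ c : O, algebraMap O F c ∈ V := by
    intro c
    have h1 := RingHom.congr_fun (psi_fromZero M a ha ha0) c
    rw [← h1, RingHom.comp_apply]
    change φ _ ∈ V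
    rw [← hfφ]
    exact hVf _
  obtain ⟨j, hj, hjV⟩ := cv V hOV
  refine ⟨j, hj, ?_⟩
  have hzj := z0 j hj
  have haV : ∀ b ∈ Submodule.span O (Set.range z), b / z j ∈ V := by
    intro b hb
    induction hb using Submodule.span_induction with
    | mem x hx =>
      obtain ⟨i, rfl⟩ := hx
      exact hjV i
    | zero =>
      rw [zero_div]
      exact V.zero_mem
    | add x y _ _ hx hy =>
      rw [add_div]
      exact V.add_mem _ _ hx hy
    | smul r x _ hx =>
      rw [Algebra.smul_def, mul_div_assoc]
      exact V.mul_mem _ _ (hOV r) hx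
  set t := Away.isLocalizationElem (tElt_mem M a ha) (tElt_mem M (z j) (hz j)) with ht
  have hφt : φ t = z j / a := psi_locElem M (z j) a (hz j) ha ha0
  have htP : t ∉ P := by
    intro hmemt
    have hnu : ¬ IsUnit (α t) := by
      have := (IsLocalization.AtPrime.to_map_mem_maximal_iff (Localization.AtPrime P) P t).2
        hmemt
      exact (IsLocalRing.mem_maximalIdeal _).1 this
    apply hnu
    apply hloc.1
    have hinv : (f (α t))⁻¹ ∈ V := by
      rw [hfφ, hφt, inv_div]
      exact haV a (hspan ha)
    have hne : f (α t) ≠ 0 := by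
      rw [hfφ, hφt]
      exact div_ne_zero hzj ha0
    refine IsUnit.of_mul_eq_one ⟨_, hinv⟩ ?_
    apply Subtype.ext
    change f (α t) * (f (α t))⁻¹ = 1
    exact mul_inv_cancel₀ hne
  have h5 := Proj.awayι_preimage_basicOpen (mPiece M) (f := tElt M a ha)
    (tElt_mem M a ha) one_pos (g := tElt M (z j) (hz j)) (tElt_mem M (z j) (hz j)) one_pos
  have h6 : w ∈ (Proj.awayι (mPiece M) (tElt M a ha) (tElt_mem M a ha) one_pos) ⁻¹ᵁ
      Proj.basicOpen (mPiece M) (tElt M (z j) (hz j)) := by
    rw [h5]
    exact htP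
  rw [modelChart_opensRange, ← hw]
  exact h6

lemma modelChart_modelMap (a : F) (ha : a ∈ M) :
    modelChart M a ha ≫ modelMap M =
      Spec.map (CommRingCat.ofHom ((fromZeroRingHom (mPiece M) _).comp (toZero M))) := by
  have h := Proj.awayι_toSpecZero_assoc (mPiece M) (tElt M a ha) (tElt_mem M a ha) one_pos
    (Spec.map (toZeroHom M))
  refine h.trans ?_
  rw [← Spec.map_comp]
  rfl

end Pool.Agent.K3h12.FF
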