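import Mathlib

/-!
# SCH3, part b: a criterion for a morphism to be an isomorphism over an open subset
-/

set_option autoImplicit false

open AlgebraicGeometry CategoryTheory

namespace Pool.Agent.K3h12.FF

/-- A separated morphism from an integral scheme, with a dominant section over an open subset `U`
of the target, is an isomorphism over `U`. -/
theorem isIso_restrict_of_section {X Y : Scheme.{0}} [IsIntegral Y] (π : Y ⟶ X) [IsSeparated π]
    (U : X.Opens) (t : (U : Scheme.{0}) ⟶ Y) (ht : t ≫ π = U.ι) [IsDominant t] :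
    IsIso (π ∣_ U) := by
  have hrange : Set.range t ⊆ Set.range (π ⁻¹ᵁ U).ι := by
    rintro _ ⟨x, rfl⟩
    rw [Scheme.Opens.range_ι]
    change π (t x) ∈ U
    rw [← Scheme.Hom.comp_apply, ht]
    exact x.2
  let s : (U : Scheme.{0}) ⟶ (π ⁻¹ᵁ U : Y.Opens) := IsOpenImmersion.lift (π ⁻¹ᵁ U).ι t hrange
  have hs : s ≫ (π ⁻¹ᵁ U).ι = t := IsOpenImmersion.lift_fac _ _ _
  have hs2 : s ≫ (π ∣_ U) = 𝟙 _ := by
    rw [← cancel_mono U.ι, Category.assoc, morphismRestrict_ι, ← Category.assoc, hs, ht,
      Category.id_comp]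
  have h1 : IsDominant (s ≫ (π ⁻¹ᵁ U).ι) := by
    rw [hs]
    infer_instance
  have h2 : IsDominant s := IsDominant.of_comp_of_isOpenImmersion s (π ⁻¹ᵁ U).ι
  have h3 : IsSeparated (π ∣_ U) :=
    IsZariskiLocalAtTarget.restrict (P := @IsSeparated) ‹IsSeparated π› U
  have h4 : IsClosedImmersion (s ≫ (π ∣_ U)) := by
    rw [hs2]
    infer_instance
  have h5 : IsClosedImmersion s := IsClosedImmersion.of_comp s (π ∣_ U)
  have h6 : Surjective s :=
    surjective_of_isDominant_of_isClosed_range _ (Scheme.Hom.isClosedEmbedding _).isClosed_range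
  have h7 : IsReduced (π ⁻¹ᵁ U : Y.Opens) := inferInstance
  have h8 : IsIso s := isIso_of_isClosedImmersion_of_surjective s
  have h9 : IsIso (s ≫ (π ∣_ U)) := by
    rw [hs2]
    infer_instance
  exact IsIso.of_isIso_comp_left s (π ∣_ U)

end Pool.Agent.K3h12.FF
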