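import Mathlib

/-!
# SCH3, part c: algebra
-/

set_option autoImplicit false

namespace Pool.Agent.K3h12.FF

variable {R F : Type} [CommRing R] [Field F] [Algebra R F]

/-- The localization of a subalgebra of a field, as a subalgebra. -/
def locSub (A : Subalgebra R F) (b : F) (hb : b ∈ A) : Subalgebra R F where
  carrier := {x | ∃ n : ℕ, b ^ n * x ∈ A}
  mul_mem' := by
    rintro x y ⟨n, hn⟩ ⟨m, hm⟩
    refine ⟨n + m, ?_⟩
    have e : b ^ (n + m) * (x * y) = (b ^ n * x) * (b ^ m * y) := by ring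
    rw [e]
    exact A.mul_mem hn hm
  add_mem' := by
    rintro x y ⟨n, hn⟩ ⟨m, hm⟩
    refine ⟨n + m, ?_⟩
    have e : b ^ (n + m) * (x + y) = b ^ m * (b ^ n * x) + b ^ n * (b ^ m * y) := by ring
    rw [e]
    exact A.add_mem (A.mul_mem (A.pow_mem hb m) hn) (A.mul_mem (A.pow_mem hb n) hm)
  algebraMap_mem' := by
    intro r
    refine ⟨0, ?_⟩
    rw [pow_zero, one_mul]
    exact A.algebraMap_mem r

lemma mem_locSub (A : Subalgebra R F) (b : F) (hb : b ∈ A) (x : F) :
    x ∈ locSub A b hb ↔ ∃ n : ℕ, b ^ n * x ∈ A := Iff.rfl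

lemma le_locSub (A : Subalgebra R F) (b : F) (hb : b ∈ A) : A ≤ locSub A b hb := by
  intro x hx
  exact ⟨0, by rw [pow_zero, one_mul]; exact hx⟩

lemma locSub_isLocalization (A : Subalgebra R F) (b : F) (hb : b ∈ A) (hb0 : b ≠ 0) :
    letI := (Subalgebra.inclusion (le_locSub A b hb)).toRingHom.toAlgebra
    IsLocalization.Away (⟨b, hb⟩ : A) (locSub A b hb) := by
  let := (Subalgebra.inclusion (le_locSub A b hb)).toRingHom.toAlgebra
  have hmap : ∀ x : A, ((algebraMap A (locSub A b hb) x : locSub A b hb) : F) = x := fun x => rfl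
  refine ⟨⟨?_, ?_, ?_⟩⟩
  · rintro ⟨_, n, rfl⟩
    have hinv : (b ^ n)⁻¹ ∈ locSub A b hb := by
      refine ⟨n, ?_⟩
      rw [mul_inv_cancel₀ (pow_ne_zero n hb0)]
      exact A.one_mem
    refine IsUnit.of_mul_eq_one ⟨_, hinv⟩ ?_
    apply Subtype.ext
    change (((⟨b, hb⟩ : A) ^ n : A) : F) * (b ^ n)⁻¹ = 1
    rw [Subalgebra.coe_pow]
    exact mul_inv_cancel₀ (pow_ne_zero n hb0)
  · rintro ⟨x, n, hn⟩
    refine ⟨(⟨b ^ n * x, hn⟩, ⟨(⟨b, hb⟩ : A) ^ n, n, rfl⟩), ?_⟩
    apply Subtype.ext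
    change x * (((⟨b, hb⟩ : A) ^ n : A) : F) = b ^ n * x
    rw [Subalgebra.coe_pow, mul_comm]
  · intro x y hxy
    have h : (x : F) = y := by
      rw [← hmap x, ← hmap y, hxy]
    refine ⟨1, ?_⟩
    rw [Subtype.ext h]

/-- A finitely generated subalgebra of the field of fractions of `A` is contained in a
localization of `A` at one element. -/
lemma exists_locSub {I : Type} [Finite I] (A : Subalgebra R F) (z : I → F)
    (hfr : ∀ x : F, ∃ a ∈ A, ∃ b ∈ A, b ≠ 0 ∧ x = a / b) :
    ∃ (b : F) (hb : b ∈ A), b ≠ 0 ∧ Algebra.adjoin R (Set.range z) ≤ locSub A b hb := by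
  classical
  have := Fintype.ofFinite I
  choose a ha d hd hd0 hz using fun i => hfr (z i)
  refine ⟨∏ i, d i, A.prod_mem fun i _ => hd i, Finset.prod_ne_zero_iff.2 fun i _ => hd0 i, ?_⟩
  rw [Algebra.adjoin_le_iff]
  rintro _ ⟨i, rfl⟩
  refine ⟨1, ?_⟩
  rw [pow_one, ← Finset.mul_prod_erase _ _ (Finset.mem_univ i)]
  have e2 : (d i * ∏ x ∈ Finset.univ.erase i, d x) * z i =
      (∏ x ∈ Finset.univ.erase i, d x) * a i := by
    conv_lhs => rw [hz i]
    have := hd0 i
    field_simp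
  rw [e2]
  exact A.mul_mem (A.prod_mem fun i _ => hd i) (ha i)

/-- The chart ring only depends on generators of the module. -/
lemma adjoin_span_div {I : Type} (z : I → F) (c : F) :
    Algebra.adjoin R {y : F | ∃ m ∈ Submodule.span R (Set.range z), y = m / c} =
      Algebra.adjoin R (Set.range fun i => z i / c) := by
  apply le_antisymm
  · rw [Algebra.adjoin_le_iff]
    rintro _ ⟨m, hm, rfl⟩
    change m / c ∈ Algebra.adjoin R (Set.range fun i => z i / c)
    induction hm using Submodule.span_induction with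
    | mem x hx =>
      obtain ⟨i, rfl⟩ := hx
      exact Algebra.subset_adjoin ⟨i, rfl⟩
    | zero =>
      rw [zero_div]
      exact Subalgebra.zero_mem _
    | add x y _ _ hx hy =>
      rw [add_div]
      exact Subalgebra.add_mem _ hx hy
    | smul r x _ hx =>
      rw [Algebra.smul_def, mul_div_assoc, ← Algebra.smul_def]
      exact Subalgebra.smul_mem _ hx r
  · apply Algebra.adjoin_mono
    rintro _ ⟨i, rfl⟩
    exact ⟨z i, Submodule.subset_span ⟨i, rfl⟩, rfl⟩

end Pool.Agent.K3h12.FF
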