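import Pool.Agent.K3h75.FF.StmT
import Pool.Agent.K3h66.FF.Glub
import Pool.Agent.K3h12.FF.Sch3a
import Pool.Agent.K3h12.FF.Sch3b
import Pool.Agent.K3h12.FF.Sch3c

/-!
# FF brick SCH3: a regular projective scheme whose chart rings contain rings of affine open subsets
of `X` gives a resolution of singularities of `X`
-/

set_option autoImplicit false

namespace Pool.Agent.K3h12.FF

open Pool.Agent.Y223.G AlgebraicGeometry CategoryTheory CategoryTheory.Limits Pool.Agent.K3h75.FF
open Pool.Agent.H968R2.Quad HomogeneousLocalization Pool.Agent.K3h66.FF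

theorem t_SCH3 : S_SCH3 := by
  intro hR κ R F _ _ _ _ _ _ _ _ hinj I _ zz J hM X _ f _ _ _ ξ hch
  classical
  choose A u hAB hfr hoi huf huξ using fun j : J => hch j.1 j.2
  let B : J → Subalgebra R F := fun j => Algebra.adjoin R (Set.range fun i => zz i / zz j.1)
  let M : Submodule R F := Submodule.span R (Set.range zz)
  have hzM : ∀ i, zz i ∈ M := fun i => Submodule.subset_span ⟨i, rfl⟩
  have hz0 : ∀ j : J, zz j.1 ≠ 0 := fun j => hM.z0 j.1 j.2
  obtain ⟨j₁, hj₁, -⟩ := hM.cv ⊤ (fun _ => trivial)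
  let j₀ : J := ⟨j₁, hj₁⟩
  have hYint : IsIntegral (model M) := model_integral M (zz j₀.1) (hzM _) (hz0 j₀)
  -- the charts
  have hB : ∀ j : J, ∀ x : F, (∃ w, psi M (zz j.1) (hzM _) (hz0 j) w = x) ↔ x ∈ B j := by
    intro j x
    rw [mem_range_psi, adjoin_span_div]
  let e : ∀ j : J, Away (mPiece M) (tElt M (zz j.1) (hzM _)) ≃+* B j := fun j =>
    RingEquiv.ofBijective ((psi M (zz j.1) (hzM _) (hz0 j)).codRestrict (B j)
      (fun w => (hB j _).1 ⟨w, rfl⟩))
      ⟨fun x y h => psi_injective M (zz j.1) (hzM _) (hz0 j) (congrArg Subtype.val h), fun x => by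
        obtain ⟨w, hw⟩ := (hB j x.1).2 x.2
        exact ⟨w, Subtype.ext hw⟩⟩
  let E : ∀ j : J, CommRingCat.of (Away (mPiece M) (tElt M (zz j.1) (hzM _))) ⟶
      CommRingCat.of (B j) := fun j =>
    CommRingCat.ofHom (R := Away (mPiece M) (tElt M (zz j.1) (hzM _))) (S := B j)
      (e j).toRingHom
  have hei : ∀ j : J, IsIso (E j) := fun j =>
    inferInstanceAs (IsIso (RingEquiv.toCommRingCatIso
      (R := Away (mPiece M) (tElt M (zz j.1) (hzM _))) (S := B j) (e j)).hom)
  obtain ⟨c, hc⟩ : ∃ c : ∀ j : J, Spec (CommRingCat.of (B j)) ⟶ model M, ∀ j,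
    c j = Spec.map (E j) ≫ modelChart M (zz j.1) (hzM _) := ⟨_, fun _ => rfl⟩
  have hc1 : ∀ j, IsOpenImmersion (c j) := fun j => by
    have := hei j
    rw [hc]
    infer_instance
  have hc2 : ∀ j, c j ≫ modelMap M = Spec.map (CommRingCat.ofHom (algebraMap R (B j))) := by
    intro j
    rw [hc, Category.assoc, modelChart_modelMap, ← Spec.map_comp, ← CommRingCat.ofHom_comp]
    congr 2
    ext r
    exact RingHom.congr_fun (psi_fromZero M (zz j.1) (hzM _) (hz0 j)) r
  have hc3 : ∀ j, Spec.map (CommRingCat.ofHom (algebraMap (B j) F)) ≫ c j =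
      Spec.map (CommRingCat.ofHom (psi M (zz j.1) (hzM _) (hz0 j))) ≫
        modelChart M (zz j.1) (hzM _) := by
    intro j
    rw [hc, ← Category.assoc, ← Spec.map_comp, ← CommRingCat.ofHom_comp]
    rfl
  have hc4 : ∀ j j', Spec.map (CommRingCat.ofHom (algebraMap (B j) F)) ≫ c j =
      Spec.map (CommRingCat.ofHom (algebraMap (B j') F)) ≫ c j' := by
    intro j j'
    rw [hc3, hc3]
    exact psi_generic M _ _ _ _ _ _
  have hcov : ∀ y : model M, ∃ j : J, y ∈ Set.range (c j) := by
    intro y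
    obtain ⟨j, hj, hy⟩ := cover_model M zz hzM le_rfl J hM.z0 hM.cv y
    refine ⟨⟨j, hj⟩, ?_⟩
    obtain ⟨w, hw⟩ := hy
    have := hei ⟨j, hj⟩
    obtain ⟨w', hw'⟩ := (Spec.map (E ⟨j, hj⟩)).surjective w
    refine ⟨w', ?_⟩
    rw [hc, Scheme.Hom.comp_apply, hw']
    exact hw
  -- the morphisms to `X`
  obtain ⟨v, hv⟩ : ∃ v : ∀ j : J, Spec (CommRingCat.of (B j)) ⟶ X, ∀ j,
    v j = Spec.map (CommRingCat.ofHom (Subalgebra.inclusion (hAB j)).toRingHom) ≫ u j :=
    ⟨_, fun _ => rfl⟩
  have hv1 : ∀ j, v j ≫ f = Spec.map (CommRingCat.ofHom (algebraMap R (B j))) := by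
    intro j
    rw [hv, Category.assoc, huf, ← Spec.map_comp, ← CommRingCat.ofHom_comp]
    rfl
  have hv2 : ∀ j, Spec.map (CommRingCat.ofHom (algebraMap (B j) F)) ≫ v j = ξ := by
    intro j
    rw [hv, ← Category.assoc, ← Spec.map_comp, ← CommRingCat.ofHom_comp]
    exact huξ j
  have hglue : ∀ j j' : J, pullback.fst (c j) (c j') ≫ v j = pullback.snd (c j) (c j') ≫ v j' := by
    intro j j'
    let ι : Spec (CommRingCat.of F) ⟶ pullback (c j) (c j') := pullback.lift
      (Spec.map (CommRingCat.ofHom (algebraMap (B j) F)))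
      (Spec.map (CommRingCat.ofHom (algebraMap (B j') F))) (hc4 j j')
    have e2 : ι ≫ (pullback.fst (c j) (c j') ≫ c j) =
        Spec.map (CommRingCat.ofHom (algebraMap (B j) F)) ≫ c j := by
      rw [← Category.assoc, pullback.lift_fst]
    have d1 : IsDominant (ι ≫ (pullback.fst (c j) (c j') ≫ c j)) := by
      rw [e2]
      exact dom_xi (R := R) (A := B j) (u := c j) rfl
    have d2 : IsDominant ι := IsDominant.of_comp_of_isOpenImmersion ι
      (pullback.fst (c j) (c j') ≫ c j)
    have d3 : IsReduced (pullback (c j) (c j')) :=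
      isReduced_of_isOpenImmersion (pullback.fst (c j) (c j') ≫ c j)
    refine ext_of_isDominant_of_isSeparated f ?_ ι ?_
    · rw [Category.assoc, Category.assoc, hv1, hv1, ← hc2, ← hc2, ← Category.assoc,
        ← Category.assoc, pullback.condition]
    · rw [← Category.assoc, ← Category.assoc, pullback.lift_fst, pullback.lift_snd, hv2, hv2]
  let 𝒰 : (model M).OpenCover := Scheme.Cover.mkOfCovers J
    (fun j : J => Spec (CommRingCat.of (B j))) (fun j => c j)
    (fun y => by obtain ⟨j, w, hw⟩ := hcov y; exact ⟨j, w, hw⟩) hc1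
  let π : model M ⟶ X := 𝒰.glueMorphisms v hglue
  have hπ : ∀ j, c j ≫ π = v j := fun j => Scheme.Cover.ι_glueMorphisms 𝒰 v hglue j
  have hπf : π ≫ f = modelMap M := by
    apply Scheme.Cover.hom_ext 𝒰
    intro (j : J)
    change c j ≫ π ≫ f = c j ≫ modelMap M
    rw [← Category.assoc, hπ, hv1, hc2]
  have hprop : IsProper (π ≫ f) := by
    rw [hπf]
    exact modelMap_isProper M hinj (Submodule.fg_span (Set.finite_range zz))
  have hπp : IsProper π := IsProper.of_comp π f
  refine ⟨model M, π, hYint, hπp, ?_, ?_⟩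
  · -- smoothness
    rw [← Category.assoc, hπf, IsZariskiLocalAtSource.iff_of_openCover (P := @Smooth) 𝒰]
    intro (j : J)
    change Smooth (c j ≫ modelMap M ≫ _)
    rw [← Category.assoc, hc2, ← Spec.map_comp, ← CommRingCat.ofHom_comp,
      HasRingHomProperty.Spec_iff (P := @Smooth)]
    let _ : Algebra κ F := ((algebraMap R F).comp (algebraMap κ R)).toAlgebra
    have : IsScalarTower κ R F := IsScalarTower.of_algebraMap_eq (fun _ => rfl)
    have hft : Algebra.FiniteType R (B j) := (Subalgebra.fg_iff_finiteType _).mp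
        ⟨(Set.finite_range fun i => zz i / zz j.1).toFinset, by rw [Set.Finite.coe_toFinset]⟩
    have hft2 : Algebra.FiniteType κ (B j) := Algebra.FiniteType.trans (S := R) inferInstance hft
    have hsm : Algebra.Smooth κ (B j) := hR κ (B j) (hM.rg j.1 j.2)
    exact RingHom.smooth_algebraMap.2 hsm
  · -- isomorphism over a dense open subset
    obtain ⟨b, hb, hb0, hBL⟩ := exists_locSub (A j₀) (fun i => zz i / zz j₀.1) (hfr j₀)
    let L : Subalgebra R F := locSub (A j₀) b hb
    let _ : Algebra (A j₀) L := (Subalgebra.inclusion (le_locSub (A j₀) b hb)).toRingHom.toAlgebra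
    have hloc : IsLocalization.Away (⟨b, hb⟩ : A j₀) L := locSub_isLocalization (A j₀) b hb hb0
    have ho1 : IsOpenImmersion (Spec.map (CommRingCat.ofHom (algebraMap (A j₀) L))) :=
      IsOpenImmersion.of_isLocalization (⟨b, hb⟩ : A j₀)
    have ho2 : IsOpenImmersion (u j₀) := hoi j₀
    let g : Spec (CommRingCat.of L) ⟶ X :=
      Spec.map (CommRingCat.ofHom (algebraMap (A j₀) L)) ≫ u j₀
    have ho3 : IsOpenImmersion g := inferInstanceAs (IsOpenImmersion (_ ≫ _))
    have hne : Nonempty (Spec (CommRingCat.of L)) := inferInstanceAs (Nonempty (PrimeSpectrum L))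
    have hneY : Nonempty (Spec (CommRingCat.of (B j₀))) :=
      inferInstanceAs (Nonempty (PrimeSpectrum (B j₀)))
    let U : X.Opens := g.opensRange
    let r : Spec (CommRingCat.of L) ⟶ Spec (CommRingCat.of (B j₀)) :=
      Spec.map (CommRingCat.ofHom (Subalgebra.inclusion hBL).toRingHom)
    have hr : IsDominant r := by
      refine ⟨?_⟩
      have h1 : DenseRange (PrimeSpectrum.comap (Subalgebra.inclusion hBL).toRingHom) := by
        rw [PrimeSpectrum.denseRange_comap_iff_ker_le_nilRadical]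
        rw [(RingHom.injective_iff_ker_eq_bot (Subalgebra.inclusion hBL).toRingHom).1
          (Subalgebra.inclusion_injective hBL)]
        exact bot_le
      exact h1
    have hcd : IsDominant (c j₀) := dom_open (c j₀)
    let t : (U : Scheme.{0}) ⟶ model M := g.isoOpensRange.inv ≫ r ≫ c j₀
    have ht : t ≫ π = U.ι := by
      change (g.isoOpensRange.inv ≫ r ≫ c j₀) ≫ π = U.ι
      rw [Category.assoc, Category.assoc, hπ]
      have h1 : r ≫ v j₀ = g := by
        rw [hv]
        change Spec.map _ ≫ Spec.map _ ≫ u j₀ = Spec.map _ ≫ u j₀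
        rw [← Category.assoc, ← Spec.map_comp, ← CommRingCat.ofHom_comp]
        rfl
      rw [h1, Iso.inv_comp_eq]
      exact (Scheme.Hom.isoOpensRange_hom_ι g).symm
    have htd : IsDominant t := inferInstanceAs (IsDominant (_ ≫ _ ≫ _))
    refine ⟨U, ?_, isIso_restrict_of_section π U t ht⟩
    exact U.isOpen.dense (Set.range_nonempty g)

end Pool.Agent.K3h12.FF
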